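import Mathlib
import Pool.Agent.H9.SK

namespace Pool.Agent.Results.MP_6c9e22_co.Counter

open Finset Pool.Agent.H9.SK

/-- Vectors in `{-1,0,1}^n` with exactly `k` nonzero coordinates. -/
def V (n k : ℕ) : Type :=
  {v : Fin n → ℤ // (∀ i, v i = -1 ∨ v i = 0 ∨ v i = 1) ∧ (univ.filter fun i => v i ≠ 0).card = k}

/-- `J±(n,k,t)`: distinct vertices are adjacent iff their scalar product equals `t`. -/
def J (n k : ℕ) (t : ℤ) : SimpleGraph (V n k) where
  Adj u v := u ≠ v ∧ ∑ i, u.1 i * v.1 i = t
  symm := ⟨fun u v h => ⟨h.1.symm, by rw [← h.2]; exact sum_congr rfl fun i _ => mul_comm _ _⟩⟩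
  loopless := ⟨fun u h => h.1 rfl⟩

/-- `K±(n,k,t)`: distinct vertices are adjacent iff their scalar product is at most `t`. -/
def K (n k : ℕ) (t : ℤ) : SimpleGraph (V n k) where
  Adj u v := u ≠ v ∧ ∑ i, u.1 i * v.1 i ≤ t
  symm := ⟨fun u v h => ⟨h.1.symm, (sum_congr rfl fun i _ => mul_comm _ _).trans_le h.2⟩⟩
  loopless := ⟨fun u h => h.1 rfl⟩

def sg (s : Bool) : ℤ := if s then 1 else -1

def vec {n : ℕ} (i : Fin n) (s : Bool) (j : Fin n) (t : Bool) : Fin n → ℤ :=
  fun x => if x = i then sg s else if x = j then sg t else 0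

theorem vec_ok {n : ℕ} {i j : Fin n} (h : j ≠ i) (s t : Bool) :
    (∀ x, vec i s j t x = -1 ∨ vec i s j t x = 0 ∨ vec i s j t x = 1) ∧
      (univ.filter fun x => vec i s j t x ≠ 0).card = 2 := by
  constructor
  · intro x
    unfold vec sg
    split_ifs <;> simp
  · rw [← card_pair h.symm]
    congr 1
    ext x
    simp only [mem_filter, mem_univ, true_and, mem_insert, mem_singleton, vec, sg]
    split_ifs <;> simp_all

theorem sum2 {n : ℕ} {i j : Fin n} (h : i ≠ j) (u v : Fin n → ℤ)
    (hu : ∀ x, u x ≠ 0 → x = i ∨ x = j) : ∑ x, u x * v x = u i * v i + u j * v j := by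
  rw [← sum_pair (f := fun x => u x * v x) h]
  refine (sum_subset (subset_univ _) fun x _ hx => ?_).symm
  by_cases q : u x = 0
  · simp [q]
  · exact absurd (by simpa using hu x q) hx

theorem low (q : ℕ) (hq : 40 ≤ q) :
    ¬ (K ((10 * q).choose (5 * q)) 2 (-1)).Colorable (10 * q + 1) := by
  rintro ⟨col⟩
  refine lower (ι := Fin ((10 * q).choose (5 * q))) q hq ⟨fun i s j t =>
    if h : j ≠ i then col ⟨vec i s j t, vec_ok h s t⟩ else 0, fun i s j t h => ?_,
    fun i s j t j' t' h h' e => ?_⟩ (Fintype.card_fin _)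
  · rw [dif_pos h, dif_pos h.symm]
    congr 2
    funext x
    unfold vec
    split_ifs <;> simp_all
  · rw [dif_pos h, dif_pos h'] at e
    by_contra hc
    refine col.valid (show (K _ 2 (-1)).Adj _ _ from ⟨fun z => ?_, ?_⟩) e
    · have := congrFun (congrArg Subtype.val z) i
      cases s <;> simp [vec, sg] at this
    · change ∑ x, vec i s j t x * vec i (!s) j' t' x ≤ -1
      rw [sum2 h.symm _ _ fun x hx => by
        unfold vec at hx
        split_ifs at hx <;> simp_all]
      by_cases z : j = j'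
      · subst z
        cases s <;> cases t <;> cases t' <;> simp_all [vec, sg]
      · cases s <;> simp [vec, sg, h, z]

theorem compl_of {α : Type} [Fintype α] [DecidableEq α] {r : ℕ} (hα : Fintype.card α = 2 * r)
    {X Y : Finset α} (hX : X.card = r) (hY : Y.card = r) (h : ¬ ∃ c, c ∈ X ∧ c ∈ Y) : Y = Xᶜ :=
  eq_of_subset_of_card_le (fun c hc => mem_compl.2 fun q => h ⟨c, q, hc⟩)
    (by rw [card_compl]; omega)

theorem up (r n : ℕ) (α : Type) [Fintype α] [DecidableEq α] (hα : Fintype.card α = 2 * r)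
    (A : Fin n → Finset α) (hA : Function.Injective A) (hc : ∀ i, (A i).card = r) :
    (J n 2 (-1)).Colorable (2 * r + 1) := by
  classical
  let w : Fin n → α → ℤ := fun i c => if c ∈ A i then 1 else -1
  let P : V n 2 → α → Prop := fun v c => ∀ i, v.1 i ≠ 0 → v.1 i = w i c
  have cc : ∀ i, (A i)ᶜ.card = r := fun i => by rw [card_compl, hc]; omega
  have tw : ∀ v : V n 2, ¬ (∃ c, P v c) → ∃ i j, i ≠ j ∧ A j = (A i)ᶜ ∧
      ∀ x, v.1 x ≠ 0 ↔ x = i ∨ x = j := fun v hv => by
    obtain ⟨i, j, h, e⟩ := card_eq_two.1 v.2.2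
    have e' : ∀ x, v.1 x ≠ 0 ↔ x = i ∨ x = j := fun x => by
      simpa using Finset.ext_iff.1 e x
    refine ⟨i, j, h, ?_, e'⟩
    have a := (e' i).2 (Or.inl rfl)
    have b := (e' j).2 (Or.inr rfl)
    have k : ∀ c, v.1 i = w i c → v.1 j = w j c → False := fun c p1 p2 => hv ⟨c, fun x hx => by
      rcases (e' x).1 hx with rfl | rfl <;> assumption⟩
    rcases v.2.1 i with p | p | p <;> rcases v.2.1 j with p' | p' | p' <;> try contradiction
    · have := compl_of hα (cc i) (cc j) fun ⟨c, x, y⟩ =>
        k c (by simp [w, p, mem_compl.1 x]) (by simp [w, p', mem_compl.1 y])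
      exact compl_injective this
    · have := compl_of hα (cc i) (hc j) fun ⟨c, x, y⟩ =>
        k c (by simp [w, p, mem_compl.1 x]) (by simp [w, p', y])
      exact absurd (hA (this.trans (compl_compl _))).symm h
    · have := compl_of hα (hc i) (cc j) fun ⟨c, x, y⟩ =>
        k c (by simp [w, p, x]) (by simp [w, p', mem_compl.1 y])
      exact absurd (hA (compl_injective this)).symm h
    · exact compl_of hα (hc i) (hc j) fun ⟨c, x, y⟩ => k c (by simp [w, p, x]) (by simp [w, p', y])
  let col : (J n 2 (-1)).Coloring (Option α) := SimpleGraph.Coloring.mk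
    (fun v => if h : ∃ c, P v c then some h.choose else none) fun {u v} h e => by
      have hs := h.2
      by_cases p : ∃ c, P u c <;> by_cases p' : ∃ c, P v c <;>
        simp only [p, p', dif_pos, dif_neg, not_false_eq_true, reduceCtorEq] at e
      · have a := p.choose_spec
        have b := p'.choose_spec
        rw [← Option.some.inj e] at b
        have : 0 ≤ ∑ i, u.1 i * v.1 i := sum_nonneg fun i _ => by
          by_cases x : u.1 i = 0
          · simp [x]
          by_cases y : v.1 i = 0
          · simp [y]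
          rw [a i x, b i y]; exact mul_self_nonneg _
        omega
      · obtain ⟨i, j, h1, h2, h3⟩ := tw u p
        obtain ⟨k, l, g1, g2, g3⟩ := tw v p'
        rw [sum2 h1 _ _ fun x => (h3 x).1] at hs
        have a := (h3 i).2 (Or.inl rfl)
        have b := (h3 j).2 (Or.inr rfl)
        have c : v.1 i ≠ 0 ↔ v.1 j ≠ 0 := by
          rw [g3, g3]
          constructor
          · rintro (rfl | rfl)
            · exact Or.inr (hA (h2.trans g2.symm))
            · exact Or.inl (hA (by rw [h2, g2, compl_compl]))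
          · rintro (rfl | rfl)
            · exact Or.inr (hA (by rw [g2, h2, compl_compl]))
            · exact Or.inl (hA (compl_injective (h2.symm.trans g2)))
        rcases u.2.1 i with x | x | x <;> rcases u.2.1 j with y | y | y <;>
          rcases v.2.1 i with z | z | z <;> rcases v.2.1 j with o | o | o <;> simp_all
  have := col.colorable
  rwa [Fintype.card_option, hα] at this

theorem result : (∀ n₀ : ℕ, ∃ n ≥ n₀,
      (J n 2 (-1)).chromaticNumber < (K n 2 (-1)).chromaticNumber) ∧
    ¬ ∀ (k : ℕ) (t : ℤ), 1 ≤ k → -(k : ℤ) ≤ t → t < 0 → ∃ n₀ : ℕ, ∀ n ≥ n₀,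
      (J n k t).chromaticNumber = (K n k t).chromaticNumber := by
  have main : ∀ n₀ : ℕ, ∃ n ≥ n₀,
      (J n 2 (-1)).chromaticNumber < (K n 2 (-1)).chromaticNumber := fun n₀ => by
    let q := n₀ + 40
    refine ⟨(10 * q).choose (5 * q), ?_, ?_⟩
    · have := Nat.choose_le_middle 1 (10 * q)
      rw [Nat.choose_one_right, show 10 * q / 2 = 5 * q by omega] at this
      omega
    · have e := (Fintype.equivFinOfCardEq (α := {A // A ∈ powersetCard (5 * q)
        (univ : Finset (Fin (10 * q)))}) (n := (10 * q).choose (5 * q)) (by simp)).symm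
      have h1 := up (5 * q) _ (Fin (10 * q)) (by simp; omega) (fun i => (e i).1)
        (Subtype.val_injective.comp e.injective) fun i => (mem_powersetCard.1 (e i).2).2
      rw [show 2 * (5 * q) = 10 * q by omega] at h1
      exact h1.chromaticNumber_le.trans_lt (not_le.1 fun h =>
        low q (by omega) (SimpleGraph.chromaticNumber_le_iff_colorable.1 h))
  refine ⟨main, fun h => ?_⟩
  obtain ⟨n₀, h1⟩ := h 2 (-1) (by norm_num) (by norm_num) (by norm_num)
  obtain ⟨n, h2, h3⟩ := main n₀
  exact h3.ne (h1 n h2)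

end Pool.Agent.Results.MP_6c9e22_co.Counter
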